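import Pool.Agent.TH671.KS.Thm

set_option autoImplicit false

/-!
Existence of a universal machine (with polynomial overhead).
-/

namespace Pool.Agent.TH671.KS

open Turing Pool.Agent.H583R2
open Pool.Agent.H545R2.KS (Machine Outputs spl_pairBits)
open Pool.Agent.NPC (pairBits)

/-! ### unbounded loops -/

section
variable {σ : Type} [TEnc σ]

/-- the loop: repeat `p` as long as the flag is `true` -/
def loopP (p : Prog) : Prog :=
  .seq unpairP (.seq (.whil .m (fun o => o == some true) (.seq (.push .m true) (.seq p unpairP)))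
    (.push .m true))

theorem loop_spec {p : Prog} {F : Bool × σ → Bool × σ} {c : Bool × σ → ℕ} (hp : Cmp p F c)
    (b : ℕ) : ∀ (n : ℕ) (s : Bool × σ), (∀ i < n, (F^[i] s).1 = true) → (F^[n] s).1 = false →
      (∀ i < n, c (F^[i] s) ≤ b) → ∀ (rest A B : List Bool),
      EvL (.whil .m (fun o => o == some true) (.seq (.push .m true) (.seq p unpairP)))
        ⟨ser (enc s.1) ++ (ser (enc s.2) ++ rest), A, B, [], []⟩
        ⟨ser (enc (F^[n] s).1) ++ (ser (enc (F^[n] s).2) ++ rest), A, B, [], []⟩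
        (n * (b + 4) + 1) := by
  intro n
  induction n with
  | zero =>
    intro s _ h2 _ rest A B
    rw [Function.iterate_zero, id] at h2 ⊢
    rw [h2]
    exact EvL.mono (EvL.whilDone rfl) (by omega)
  | succ n ih =>
    intro s h1 h2 h3 rest A B
    have h4 : s.1 = true := h1 0 (by omega)
    have h5 := h3 0 (by omega)
    rw [Function.iterate_zero, id] at h5
    have h6 := ih (F s) (fun i hi => by
      rw [← Function.iterate_succ_apply]; exact h1 (i + 1) (by omega)) (by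
      rw [← Function.iterate_succ_apply]; exact h2) (fun i hi => by
      rw [← Function.iterate_succ_apply]; exact h3 (i + 1) (by omega)) rest A B
    rw [← Function.iterate_succ_apply F] at h6
    have h7 := (pairP_spec (enc s.1) (enc s.2) rest A B).seq
      ((hp s rest A B).seq (unpairP_spec (enc (F s).1) (enc (F s).2) rest A B))
    refine EvL.mono (EvL.whilStep ?_ h7 h6) ?_
    · change ((ser (enc s.1) ++ (ser (enc s.2) ++ rest)).head? == some true) = true
      rw [h4]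
      rfl
    · have : (n + 1) * (b + 4) = n * (b + 4) + (b + 4) := by ring
      omega

theorem loopP_spec {p : Prog} {F : Bool × σ → Bool × σ} {c : Bool × σ → ℕ} (hp : Cmp p F c)
    {n b : ℕ} {s : Bool × σ} (h1 : ∀ i < n, (F^[i] s).1 = true) (h2 : (F^[n] s).1 = false)
    (h3 : ∀ i < n, c (F^[i] s) ≤ b) :
    EvL (loopP p) ⟨ser (enc s), [], [], [], []⟩ ⟨ser (enc (F^[n] s)), [], [], [], []⟩
      (n * (b + 4) + 4) := by
  have e1 := unpairP_spec (enc s.1) (enc s.2) [] [] []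
  have e2 := loop_spec hp b n s h1 h2 h3 [] [] []
  have e3 := pairP_spec (enc (F^[n] s).1) (enc (F^[n] s).2) [] [] []
  have e4 := e1.seq (e2.seq e3)
  rw [List.append_nil, List.append_nil] at e4
  exact EvL.mono e4 (by omega)

end

/-! ### the universal machine -/

/-- the state of the search for a halting time -/
abbrev US := Bool × ((Code × List Bool) × (ℕ × Option (List Bool)))

/-- initial state -/
def u0 (z : List Bool) : US :=
  (true, ((decCode (parse (spl z).1), (spl z).2), (0, none)))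

/-- next state -/
def u1 (s : US) : US :=
  (!(U s.2.1.1 s.2.1.2 s.2.2.1).isSome, (s.2.1, (s.2.2.1 + 1, U s.2.1.1 s.2.1.2 s.2.2.1)))

/-- result -/
def u2 (s : US) : List Bool := s.2.2.2.getD []

theorem pf_u0 : PF u0 :=
  PF.pair (PF.const true) (PF.pair (PF.pair (PF.decCode (PF.parse (PF.fst' (PF.spl PF.id))))
    (PF.snd' (PF.spl PF.id))) (PF.const (0, none)))

theorem pf_u1 : PF u1 := by
  have h1 : PF (fun s : US => s.2.1.1) := PF.fst' (PF.fst' PF.snd)
  have h2 : PF (fun s : US => s.2.1.2) := PF.snd' (PF.fst' PF.snd)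
  have h3 : PF (fun s : US => s.2.2.1) := PF.fst' (PF.snd' PF.snd)
  have h4 : PF (fun s : US => U s.2.1.1 s.2.1.2 s.2.2.1) :=
    PF.comp (g := fun p : Code × List Bool × ℕ => U p.1 p.2.1 p.2.2)
      (f := fun s : US => (s.2.1.1, s.2.1.2, s.2.2.1)) PF.U (PF.pair h1 (PF.pair h2 h3))
  exact PF.pair (PF.not (PF.isSome h4)) (PF.pair (PF.fst' PF.snd) (PF.pair (PF.succ h3) h4))

theorem pf_u2 : PF u2 := PF.getD (PF.snd' (PF.snd' PF.snd)) (PF.const [])

theorem u1_iter (cd : Code) (y : List Bool) (n : ℕ) (h : ∀ i < n, U cd y i = none) :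
    u1^[n] (true, ((cd, y), (0, none))) =
      (true, ((cd, y), (n, none))) := by
  induction n with
  | zero => rfl
  | succ n ih =>
    rw [Function.iterate_succ_apply', ih (fun i hi => h i (by omega))]
    unfold u1
    dsimp only
    rw [h n (by omega)]
    rfl

theorem U_stable {cd : Code} {y x : List Bool} {n : ℕ} (h : U cd y n = some x) (m : ℕ) :
    U cd y (n + m) = some x := by
  have h1 : ¬ (runU cd y n).1 < cd.1.length := by
    intro hlt
    unfold U at h
    rw [if_pos (by simpa using hlt)] at h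
    simp at h
  have h2 : runU cd y (n + m) = runU cd y n := by
    induction m with
    | zero => rfl
    | succ m ih =>
      have e : runU cd y (n + (m + 1)) = stepU cd.1 (runU cd y (n + m)) := by
        unfold runU
        rw [← Nat.add_assoc, Function.iterate_succ_apply']
      rw [e, ih]
      unfold stepU
      rw [List.getElem?_eq_none (by omega)]
  unfold U at h ⊢
  rw [h2]
  exact h

theorem exists_universal : ∃ U₀ : Machine, IsUniversal U₀ := by
  obtain ⟨C0, ⟨k0, hk0⟩, p0, hp0⟩ := pf_u0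
  obtain ⟨C1, ⟨k1, hk1⟩, p1, hp1⟩ := pf_u1
  obtain ⟨C2, ⟨k2, hk2⟩, p2, hp2⟩ := pf_u2
  refine ⟨mk (.seq p0 (.seq (loopP p1) p2)), fun M => ?_⟩
  obtain ⟨cd, hcd⟩ : ∃ cd : Code, cd = codeOf M.inputAlphabet M.outputAlphabet := ⟨_, rfl⟩
  obtain ⟨e', he'⟩ : ∃ e' : List Bool, e' = ser (enc cd) := ⟨_, rfl⟩
  obtain ⟨e, he⟩ : ∃ e : List Bool, ∀ y, e ++ y = pairBits e' y :=
    ⟨e'.flatMap (fun b => [true, b]) ++ [false], fun y => by simp [pairBits]⟩
  obtain ⟨Q, hQ⟩ : ∃ Q : ℕ, Q = maxDep M.tm := ⟨_, rfl⟩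
  obtain ⟨E, hE⟩ : ∃ E, E = sz cd + 4 * e.length + Q + 100 := ⟨_, rfl⟩
  refine ⟨e, E * (k0 + k1 + k2 + 10) * 20, fun y x t hM => ?_⟩
  have h1 : U cd y (Q * t) = some x := by
    obtain ⟨h⟩ := hM
    rw [hcd]
    exact U_codeOf M.inputAlphabet M.outputAlphabet y x t h _ (by rw [hQ])
  classical
  obtain ⟨n, hn, hnx, hmin⟩ : ∃ n ≤ Q * t, U cd y n = some x ∧ ∀ i < n, U cd y i = none := by
    have hex : ∃ n, (U cd y n).isSome := ⟨Q * t, by rw [h1]; rfl⟩
    have h2 : Nat.find hex ≤ Q * t := Nat.find_min' hex (by rw [h1]; rfl)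
    refine ⟨Nat.find hex, h2, ?_, fun i hi => ?_⟩
    · obtain ⟨x', hx'⟩ := Option.isSome_iff_exists.1 (Nat.find_spec hex)
      have := U_stable hx' (Q * t - Nat.find hex)
      rw [Nat.add_sub_cancel' h2, h1] at this
      rw [hx', ← this]
    · have := Nat.find_min hex hi
      rwa [Option.not_isSome_iff_eq_none] at this
  have hu0 : u0 (e ++ y) = (true, ((cd, y), (0, none))) := by
    unfold u0
    rw [he, spl_pairBits]
    dsimp only
    have : parse e' = enc cd := by
      have := parse_ser (enc cd) []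
      rw [List.append_nil] at this
      rw [he', this]
    rw [this, decCode_enc]
  have hit : ∀ i ≤ n, u1^[i] (u0 (e ++ y)) = (true, ((cd, y), (i, none))) := by
    intro i hi
    rw [hu0]
    exact u1_iter cd y i (fun j hj => hmin j (by omega))
  have hfin : u1^[n + 1] (u0 (e ++ y)) = (false, ((cd, y), (n + 1, some x))) := by
    rw [Function.iterate_succ_apply', hit n le_rfl]
    unfold u1
    dsimp only
    rw [hnx]
    rfl
  -- sizes
  obtain ⟨Z, hZ⟩ : ∃ Z, Z = t + y.length + 2 := ⟨_, rfl⟩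
  have hnZ : n ≤ E * Z := by
    refine hn.trans ?_
    rw [hE, hZ]
    nlinarith
  have hy := sz_str_le y
  have hyz : sz (e ++ y) ≤ E * Z := by
    have h2 := sz_str_le (e ++ y)
    rw [List.length_append] at h2
    rw [hE, hZ]
    nlinarith
  have hxl : x.length ≤ 2 * (E * Z) := by
    have h2 := U_length_le cd y n
    rw [hnx] at h2
    simp only [Option.getD_some] at h2
    have h3 : y.length ≤ E * Z := by
      rw [hE, hZ]; nlinarith
    omega
  have hst : ∀ i ≤ n, sz (u1^[i] (u0 (e ++ y))) ≤ 10 * (E * Z) := by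
    intro i hi
    rw [hit i hi]
    simp only [sz_pair, sz_nat, sz_true, sz_none]
    have h3 : sz cd + sz y + 50 ≤ E * Z := by
      rw [hE, hZ]; nlinarith
    omega
  have hst2 : sz (u1^[n + 1] (u0 (e ++ y))) ≤ 20 * (E * Z) := by
    rw [hfin]
    have h2 := sz_str_le x
    simp only [sz_pair, sz_nat, sz_false, sz_some]
    have h3 : sz cd + sz y + 50 ≤ E * Z := by
      rw [hE, hZ]; nlinarith
    omega
  obtain ⟨B, hB⟩ : ∃ B, B = 20 * (E * Z) + 2 := ⟨_, rfl⟩
  have hc0 : C0 (e ++ y) ≤ B ^ k0 := (hk0 _).trans (Nat.pow_le_pow_left (by omega) k0)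
  have hc1 : ∀ i < n + 1, C1 (u1^[i] (u0 (e ++ y))) ≤ B ^ k1 := fun i hi =>
    (hk1 _).trans (Nat.pow_le_pow_left (by have := hst i (by omega); omega) k1)
  have hc2 : C2 (u1^[n + 1] (u0 (e ++ y))) ≤ B ^ k2 :=
    (hk2 _).trans (Nat.pow_le_pow_left (by omega) k2)
  have r0 := hp0 (e ++ y) [] [] []
  have r1 := loopP_spec hp1 (n := n + 1) (b := B ^ k1) (s := u0 (e ++ y))
    (fun i hi => by rw [hit i (by omega)]) (by rw [hfin]) hc1
  have r2 := hp2 (u1^[n + 1] (u0 (e ++ y))) [] [] []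
  rw [List.append_nil, List.append_nil] at r0 r2
  have hu2 : u2 (u1^[n + 1] (u0 (e ++ y))) = x := by
    rw [hfin]
    rfl
  rw [hu2] at r2
  have r3 := outputs_mk (r0.seq (r1.seq r2))
  refine Outputs.mono r3 ?_
  rw [List.length_append, ← hZ]
  -- final estimate
  have hB1 : 1 ≤ B := by omega
  have p0' : 1 ≤ B ^ k0 := Nat.one_le_pow _ _ hB1
  have p1' : 1 ≤ B ^ k1 := Nat.one_le_pow _ _ hB1
  have p2' : 1 ≤ B ^ k2 := Nat.one_le_pow _ _ hB1
  have g1 : e.length ≤ B := by rw [hB]; nlinarith [Nat.zero_le (E * Z)]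
  have g2 : y.length ≤ B := by
    have h3 : y.length ≤ E * Z := by
      rw [hE, hZ]; nlinarith
    omega
  have g3 : (n + 1) * (B ^ k1 + 4) ≤ B * (B ^ k1 * 5) :=
    Nat.mul_le_mul (by omega) (by omega)
  have g4 : 9 * (e.length + y.length) + (C0 (e ++ y) + ((n + 1) * (B ^ k1 + 4) + 4 +
      C2 (u1^[n + 1] (u0 (e ++ y))))) + 12 * x.length + 8 ≤ 100 * B * (B ^ k0 * B ^ k1 * B ^ k2) := by
    have q1 : B ^ k0 ≤ B ^ k0 * B ^ k1 * B ^ k2 := by
      rw [mul_assoc]; exact Nat.le_mul_of_pos_right _ (Nat.mul_pos p1' p2')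
    have q2 : B ^ k1 ≤ B ^ k0 * B ^ k1 * B ^ k2 :=
      (Nat.le_mul_of_pos_left _ p0').trans (Nat.le_mul_of_pos_right _ p2')
    have q3 : B ^ k2 ≤ B ^ k0 * B ^ k1 * B ^ k2 :=
      Nat.le_mul_of_pos_left _ (Nat.mul_pos p0' p1')
    set P := B ^ k0 * B ^ k1 * B ^ k2 with hP
    have q4 : 1 ≤ P := p0'.trans q1
    have q5 : P ≤ B * P := Nat.le_mul_of_pos_left _ hB1
    have q6 : B ≤ B * P := Nat.le_mul_of_pos_right _ q4
    have q7 : B * (B ^ k1 * 5) ≤ 5 * (B * P) := by
      calc B * (B ^ k1 * 5) = 5 * (B * B ^ k1) := by ring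
        _ ≤ 5 * (B * P) := Nat.mul_le_mul_left _ (Nat.mul_le_mul_left _ q2)
    have q8 : 100 * B * P = 100 * (B * P) := by ring
    rw [q8]
    have q9 : 12 * x.length ≤ 12 * (B * P) := by
      have : x.length ≤ B := by omega
      omega
    omega
  refine g4.trans ?_
  have hZ2 : 2 ≤ Z := by omega
  have hE2 : E ≤ 2 ^ E := Nat.lt_two_pow_self.le
  have hBZ : B ≤ Z ^ (E + 7) := by
    calc B ≤ 22 * (E * Z) := by
          rw [hB]
          have : 1 ≤ E * Z := Nat.mul_pos (by omega) (by omega)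
          omega
      _ ≤ 2 ^ 5 * (2 ^ E * Z) := Nat.mul_le_mul (by norm_num) (Nat.mul_le_mul_right _ hE2)
      _ ≤ Z ^ 5 * (Z ^ E * Z) := Nat.mul_le_mul (Nat.pow_le_pow_left hZ2 5)
          (Nat.mul_le_mul_right _ (Nat.pow_le_pow_left hZ2 E))
      _ = Z ^ (E + 6) := by ring
      _ ≤ Z ^ (E + 7) := Nat.pow_le_pow_right (by omega) (by omega)
  calc 100 * B * (B ^ k0 * B ^ k1 * B ^ k2) = 100 * B ^ (k0 + k1 + k2 + 1) := by ring
    _ ≤ 2 ^ 7 * (Z ^ (E + 7)) ^ (k0 + k1 + k2 + 1) :=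
      Nat.mul_le_mul (by norm_num) (Nat.pow_le_pow_left hBZ _)
    _ ≤ Z ^ 7 * (Z ^ (E + 7)) ^ (k0 + k1 + k2 + 1) :=
      Nat.mul_le_mul_right _ (Nat.pow_le_pow_left hZ2 7)
    _ = Z ^ (7 + (E + 7) * (k0 + k1 + k2 + 1)) := by rw [← pow_mul, ← pow_add]
    _ ≤ Z ^ (E * (k0 + k1 + k2 + 10) * 20) := by
      refine Nat.pow_le_pow_right (by omega) ?_
      have : 100 ≤ E := by omega
      nlinarith [Nat.zero_le (k0 + k1 + k2), Nat.zero_le (E * (k0 + k1 + k2))]

end Pool.Agent.TH671.KS
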