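import Pool.Agent.TH671.KS.Search
import Pool.Agent.NPC.Dec

set_option autoImplicit false

/-!
A set in `P` between `K ∩ A` and `A` is a finite variation of `A`, if `A` is `NP`-complete and
paddable.
-/

namespace Pool.Agent.TH671.KS

open Turing Pool.Agent.H583R2
open Pool.Agent.H545R2.KS (Machine Outputs K Separable PeqNP NPComplete Paddable
  pf_pairBits spl_pairBits pairBits_length pairBits_inj
  pf_of_polyTime polyTime_of_pf pf_eval pf_pow poly_le_pow eval_mono)
open Pool.Agent.NPC (PolyTime pairBits InNP InP NPHard Reduces)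

/-- decoding of the description: the choice among the three candidates -/
def ee (y : List Bool) : Option Bool :=
  if y.headD false then some (y.tail.headD false) else none

/-- decoding of the description: the index of the length -/
def rr (y : List Bool) : List Bool := y.tail.tail

/-- the description -/
def ds (e : Option Bool) (r : List Bool) : List Bool :=
  match e with
  | none => false :: false :: r
  | some b => true :: b :: r

theorem ee_ds (e : Option Bool) (r : List Bool) : ee (ds e r) = e := by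
  rcases e with _ | b <;> rfl

theorem rr_ds (e : Option Bool) (r : List Bool) : rr (ds e r) = r := by
  rcases e with _ | b <;> rfl

theorem ds_length (e : Option Bool) (r : List Bool) : (ds e r).length = r.length + 2 := by
  rcases e with _ | b <;> rfl

theorem pf_out (D : Dat) (hV : PF D.V) (hσ : PF D.σ) (hh : PF D.h) :
    PF (fun a : List Bool × ℕ => D.out a.2 (ee a.1)) := by
  have h1 : PF (fun a : List Bool × ℕ => D.fin a.2) := (D.pf_fin hV hσ hh).comp PF.snd
  refine (PF.ite (b := fun a : List Bool × ℕ => a.1.headD false)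
    (f := fun a => D.h (a.2, D.fin a.2 ++ [a.1.tail.headD false]))
    (g := fun a => (spl (D.fin a.2)).1) (PF.headF PF.fst)
    (hh.comp (PF.pair PF.snd (PF.append h1 (PF.cons (PF.headF (PF.tail PF.fst)) (PF.const [])))))
    (PF.fst' (PF.spl h1))).congr ?_
  intro a
  unfold ee Dat.out
  by_cases h : a.1.headD false = true
  · rw [if_pos h, if_pos h]
  · rw [if_neg h, if_neg h]

theorem hp_out (D : Dat) (hV : PF D.V) (hσ : PF D.σ) (hh : PF D.h) :
    HP (fun y => D.out (2 ^ 2 ^ idx (rr y)) (ee y)) (fun y => 2 ^ 2 ^ idx (rr y)) := by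
  have hr : PF rr := PF.tail (PF.tail PF.id)
  have h1 : HP (fun y : List Bool => (y, 2 ^ ((rr y).length + 1)))
      (fun y => 0 + 2 ^ ((rr y).length + 1)) :=
    HP.two_pow (f := fun y : List Bool => (rr y).length + 1)
      (HP.of_PF (PF.succ (PF.length hr)) (fun _ => 0))
  have h2 : HP (fun y : List Bool => idx (rr y)) (fun y => 0 + 2 ^ ((rr y).length + 1)) := by
    have h3 : PF (fun a : List Bool × ℕ => min (idx (rr a.1)) a.2) :=
      pf_idxCap (hr.comp PF.fst) PF.snd
    refine (HP.comp (HP.of_PF h3 (fun _ => 0)) h1 ⟨0, fun a => by simp⟩).congr ?_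
    intro y
    have := idx_lt (rr y)
    exact min_eq_left (by dsimp only; omega)
  have h3 : HP (fun y : List Bool => 2 ^ idx (rr y))
      (fun y => 0 + 2 ^ ((rr y).length + 1) + 2 ^ idx (rr y)) :=
    HP.comp (f := fun y : List Bool => (y, 2 ^ idx (rr y))) (g := fun p : List Bool × ℕ => p.2)
      (HP.of_PF PF.snd (fun _ => 0)) (HP.two_pow h2) ⟨0, fun a => by simp⟩
  have h4 := HP.two_pow h3
  refine (HP.comp (HP.of_PF (pf_out D hV hσ hh) (fun _ => 0)) h4 ⟨0, fun a => by simp⟩).mono ?_
  refine ⟨4, fun y => ?_⟩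
  have e1 := le_idx (rr y)
  have e2 : idx (rr y) < 2 ^ idx (rr y) := Nat.lt_two_pow_self
  have e3 : 2 ^ idx (rr y) < 2 ^ 2 ^ idx (rr y) := Nat.lt_two_pow_self
  have e7 : ∀ B : ℕ, B ^ 4 = B ^ 3 * B := fun B => pow_succ B 3
  rw [e7]
  have e8 : 2 ^ ((rr y).length + 1) = 2 ^ (rr y).length * 2 := pow_succ _ _
  set B := 2 ^ 2 ^ idx (rr y) + sz y + 2 with hB
  have e4 : 8 ≤ 2 ^ 3 := by norm_num
  have e5 : 2 ^ 3 ≤ B ^ 3 := Nat.pow_le_pow_left (by omega) 3
  have e6 : 8 * B ≤ B ^ 3 * B := Nat.mul_le_mul_right _ (by omega)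
  omega

/-- the set of all pairs of a number in unary and a string which can be extended -/
def BB (D : Dat) : Set (List Bool) :=
  {u | pairBits (spl u).1 (spl u).2 = u ∧ D.R (spl u).1.length (spl u).2}

/-- the verifier of `BB` -/
def vb (D : Dat) (v : List Bool) : Bool :=
  (pairBits (spl (spl v).1).1 (spl (spl v).1).2 == (spl v).1) &&
    D.W (spl (spl v).1).1.length ((spl (spl v).1).2 ++ (spl v).2)

theorem pf_vb (D : Dat) (hV : PF D.V) (hσ : PF D.σ) : PF (vb D) := by
  have h1 : PF (fun v : List Bool => (spl v).1) := PF.fst' (PF.spl PF.id)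
  have h2 : PF (fun v : List Bool => (spl v).2) := PF.snd' (PF.spl PF.id)
  have h3 : PF (fun v : List Bool => (spl (spl v).1).1) := PF.fst' (PF.spl h1)
  have h4 : PF (fun v : List Bool => (spl (spl v).1).2) := PF.snd' (PF.spl h1)
  have h5 : PF (fun v : List Bool =>
      (pairBits (spl (spl v).1).1 (spl (spl v).1).2 == (spl v).1)) :=
    PF.beqStr (pf_pairBits h3 h4) h1
  have h6 : PF (fun v : List Bool =>
      D.W (spl (spl v).1).1.length ((spl (spl v).1).2 ++ (spl v).2)) :=
    PF.comp (g := fun a : ℕ × List Bool => D.W a.1 a.2)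
      (f := fun v : List Bool => ((spl (spl v).1).1.length, (spl (spl v).1).2 ++ (spl v).2))
      (D.pf_W hV hσ) (PF.pair (PF.length h3) (PF.append h4 h2))
  exact PF.and h5 h6

theorem vb_iff (D : Dat) (u r : List Bool) : vb D (pairBits u r) = true ↔
    pairBits (spl u).1 (spl u).2 = u ∧ D.W (spl u).1.length ((spl u).2 ++ r) = true := by
  unfold vb
  rw [spl_pairBits, Bool.and_eq_true, beq_iff_eq]

theorem BB_inNP (D : Dat) (hV : PF D.V) (hσ : PF D.σ) : InNP (BB D) := by
  have hPT : PolyTime (fun v => [vb D v]) :=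
    polyTime_of_pf (PF.cons (pf_vb D hV hσ) (PF.const []))
  refine ⟨fun v => [vb D v], 2 * Polynomial.X + 1 + D.p, hPT, fun u => ?_⟩
  constructor
  · rintro ⟨hu, r, hr⟩
    refine ⟨r, ?_, ?_⟩
    · have e1 := D.W_length hr
      have e2 : (spl u).1.length ≤ u.length := by
        have := pairBits_length (spl u).1 (spl u).2
        rw [hu] at this
        omega
      have e3 := eval_mono D.p e2
      rw [List.length_append] at e1
      simp only [Polynomial.eval_add, Polynomial.eval_mul, Polynomial.eval_X,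
        Polynomial.eval_one, Polynomial.eval_ofNat]
      unfold Dat.bd at e1
      omega
    · rw [List.cons.injEq]
      exact ⟨(vb_iff D u r).2 ⟨hu, hr⟩, rfl⟩
  · rintro ⟨r, -, hr⟩
    rw [List.cons.injEq] at hr
    have := (vb_iff D u r).1 hr.1
    exact ⟨this.1, r, this.2⟩

end Pool.Agent.TH671.KS
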