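import Pool.Agent.TH671.KS.Time

set_option autoImplicit false

/-!
The search for a member of `A \ S` which is guided by the decision procedure for `S`.
-/

namespace Pool.Agent.TH671.KS

open Turing Pool.Agent.H583R2
open Pool.Agent.H545R2.KS (Machine Outputs pf_pairBits spl_pairBits pairBits_length pairBits_inj
  pf_of_polyTime polyTime_of_pf pf_eval pf_pow poly_le_pow eval_mono)
open Pool.Agent.NPC (PolyTime pairBits InNP InP NPHard Reduces)

/-- data: a verifier `V` with certificate bound `p` for `A`, the characteristic function `σ` of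
`S`, and a map `h` -/
structure Dat where
  V : List Bool → Bool
  p : Polynomial ℕ
  σ : List Bool → Bool
  h : ℕ × List Bool → List Bool

namespace Dat

variable (D : Dat)

/-- `z` is a pair of a string `x` in `A \ S` with `|x| ≤ m < |x| ^ 2` and of a certificate -/
def W (m : ℕ) (z : List Bool) : Bool :=
  (pairBits (spl z).1 (spl z).2 == z) && (D.V z && (!(D.σ (spl z).1) &&
    (decide ((spl z).1.length ≤ m) && (decide (m < (spl z).1.length * (spl z).1.length) &&
      decide ((spl z).2.length ≤ D.p.eval (spl z).1.length)))))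

/-- bound for the length of `z` -/
def bd (m : ℕ) : ℕ := 2 * m + 1 + D.p.eval m

theorem W_length {m : ℕ} {z : List Bool} (h : D.W m z = true) : z.length ≤ D.bd m := by
  simp only [W, Bool.and_eq_true, beq_iff_eq, decide_eq_true_eq] at h
  obtain ⟨h1, -, -, h2, -, h3⟩ := h
  rw [← h1, pairBits_length]
  have := eval_mono D.p h2
  unfold bd
  omega

/-- one step of the search -/
def step (m : ℕ) (q : List Bool) : List Bool :=
  if D.W m q then q else if D.σ (D.h (m, q ++ [false])) then q ++ [false] else
    if D.σ (D.h (m, q ++ [true])) then q ++ [true] else q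

/-- the final state of the search -/
def fin (m : ℕ) : List Bool := (D.step m)^[D.bd m + 1] []

/-- the three candidates: `none` stands for the string found -/
def out (m : ℕ) (e : Option Bool) : List Bool :=
  match e with
  | none => (spl (D.fin m)).1
  | some b => D.h (m, D.fin m ++ [b])

theorem step_length (m : ℕ) (q : List Bool) :
    D.step m q = q ∨ (D.step m q).length = q.length + 1 := by
  unfold step
  split_ifs <;> simp

theorem iter_length (m : ℕ) (n : ℕ) (h : ∀ i < n, D.step m ((D.step m)^[i] []) ≠ (D.step m)^[i] []) :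
    ((D.step m)^[n] []).length = n := by
  induction n with
  | zero => rfl
  | succ n ih =>
    rw [Function.iterate_succ_apply']
    rcases D.step_length m ((D.step m)^[n] []) with h1 | h1
    · exact absurd h1 (h n (by omega))
    · rw [h1, ih (fun i hi => h i (by omega))]

/-- `q` can be extended -/
def R (m : ℕ) (q : List Bool) : Prop := ∃ r, D.W m (q ++ r) = true

theorem R_step {m : ℕ} (hσ : ∀ q, D.σ (D.h (m, q)) = true → D.R m q) {q : List Bool}
    (h : D.R m q) : D.R m (D.step m q) := by
  unfold step
  split_ifs with h1 h2 h3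
  · exact h
  · exact hσ _ h2
  · exact hσ _ h3
  · exact h

theorem R_iter {m : ℕ} (hσ : ∀ q, D.σ (D.h (m, q)) = true → D.R m q) (h : D.R m []) (n : ℕ) :
    D.R m ((D.step m)^[n] []) := by
  induction n with
  | zero => exact h
  | succ n ih =>
    rw [Function.iterate_succ_apply']
    exact D.R_step hσ ih

theorem fin_fixed {m : ℕ} (hσ : ∀ q, D.σ (D.h (m, q)) = true → D.R m q) (h : D.R m []) :
    D.step m (D.fin m) = D.fin m := by
  by_contra hne
  have h1 : ∀ i < D.bd m + 1, D.step m ((D.step m)^[i] []) ≠ (D.step m)^[i] [] := by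
    intro i hi heq
    apply hne
    have h2 : ∀ j, (D.step m)^[i + j] [] = (D.step m)^[i] [] := by
      intro j
      induction j with
      | zero => rfl
      | succ j ih => rw [← Nat.add_assoc, Function.iterate_succ_apply', ih, heq]
    have h3 : D.fin m = (D.step m)^[i] [] := by
      have := h2 (D.bd m + 1 - i)
      rw [Nat.add_sub_cancel' (by omega)] at this
      exact this
    rw [h3, heq]
  have h2 := D.iter_length m _ h1
  obtain ⟨r, hr⟩ := D.R_iter hσ h (D.bd m + 1)
  have h3 := D.W_length hr
  rw [List.length_append, h2] at h3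
  omega

/-- one of the three candidates is a mistake of `σ` -/
theorem main {A : Set (List Bool)} {m : ℕ} (hm : 2 ≤ m)
    (hA : ∀ z, D.W m z = true → (spl z).1 ∈ A)
    (hσA : ∀ x, D.σ x = true → x ∈ A)
    (hh : ∀ q, D.h (m, q) ∈ A ↔ D.R m q) (hlen : ∀ q, m ≤ (D.h (m, q)).length)
    (hR : D.R m []) :
    ∃ e, D.out m e ∈ A ∧ D.σ (D.out m e) = false ∧
      m < (D.out m e).length * (D.out m e).length := by
  have hσ : ∀ q, D.σ (D.h (m, q)) = true → D.R m q := fun q hq => (hh q).1 (hσA _ hq)
  have h1 := D.fin_fixed hσ hR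
  obtain ⟨r, hr⟩ := D.R_iter hσ hR (D.bd m + 1)
  change D.W m (D.fin m ++ r) = true at hr
  by_cases hW : D.W m (D.fin m) = true
  · refine ⟨none, hA _ hW, ?_, ?_⟩
    · simp only [W, Bool.and_eq_true, Bool.not_eq_true'] at hW
      exact hW.2.2.1
    · simp only [W, Bool.and_eq_true, decide_eq_true_eq] at hW
      exact hW.2.2.2.2.1
  · rcases r with _ | ⟨b, r⟩
    · rw [List.append_nil] at hr
      exact absurd hr hW
    · have hnot : ∀ b, D.σ (D.h (m, D.fin m ++ [b])) = false := by
        intro b
        rw [← Bool.not_eq_true]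
        intro hb
        unfold step at h1
        rw [if_neg hW] at h1
        by_cases hf : D.σ (D.h (m, D.fin m ++ [false])) = true
        · rw [if_pos hf] at h1
          simp at h1
        · rw [if_neg hf] at h1
          cases b
          · exact hf hb
          · rw [if_pos hb] at h1
            simp at h1
      refine ⟨some b, ?_, hnot b, ?_⟩
      · refine (hh _).2 ⟨r, ?_⟩
        rw [List.append_assoc]
        exact hr
      · have := hlen (D.fin m ++ [b])
        change m < (D.h (m, D.fin m ++ [b])).length * (D.h (m, D.fin m ++ [b])).length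
        nlinarith

/-! ### the search takes polynomial time -/

theorem pf_W (hV : PF D.V) (hσ : PF D.σ) : PF (fun a : ℕ × List Bool => D.W a.1 a.2) := by
  have h1 : PF (fun a : ℕ × List Bool => (spl a.2).1) := PF.fst' (PF.spl PF.snd)
  have h2 : PF (fun a : ℕ × List Bool => (spl a.2).2) := PF.snd' (PF.spl PF.snd)
  refine PF.and (PF.beqStr (pf_pairBits h1 h2) PF.snd) (PF.and (hV.comp PF.snd) (PF.and
    (PF.not (hσ.comp h1)) (PF.and (PF.le (PF.length h1) PF.fst) (PF.and
      (PF.lt PF.fst (PF.mul (PF.length h1) (PF.length h1)))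
      (PF.le (PF.length h2) (pf_eval (PF.length h1) D.p))))))

theorem pf_bd {α : Type} [TEnc α] {n : α → ℕ} (hn : PF n) : PF (fun a => D.bd (n a)) :=
  PF.add (PF.add (PF.mul (PF.const 2) hn) (PF.const 1)) (pf_eval hn D.p)

theorem pf_step (hV : PF D.V) (hσ : PF D.σ) (hh : PF D.h) :
    PF (fun a : ℕ × List Bool => D.step a.1 a.2) := by
  have e : ∀ b : Bool, PF (fun a : ℕ × List Bool => a.2 ++ [b]) := fun b =>
    PF.append PF.snd (PF.const [b])
  exact PF.ite (D.pf_W hV hσ) PF.snd (PF.ite (hσ.comp (hh.comp (PF.pair PF.fst (e false))))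
    (e false) (PF.ite (hσ.comp (hh.comp (PF.pair PF.fst (e true)))) (e true) PF.snd))

theorem sz_step (m : ℕ) (q : List Bool) : sz (D.step m q) ≤ sz q + 4 := by
  have h : ∀ b : Bool, sz (q ++ [b]) ≤ sz q + 4 := by
    intro b
    have h1 := sz_append q [b]
    have h2 := sz_bool b
    rw [sz_cons, sz_nil] at h1
    omega
  unfold step
  split_ifs
  · omega
  · exact h _
  · exact h _
  · omega

theorem pf_fin (hV : PF D.V) (hσ : PF D.σ) (hh : PF D.h) : PF (fun m : ℕ => D.fin m) :=
  PF.iterateAdd (n := fun m => D.bd m + 1) (s := fun _ => ([] : List Bool))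
    (f := fun m q => D.step m q) (PF.succ (D.pf_bd PF.id)) (PF.const []) (D.pf_step hV hσ hh)
    (inc := fun _ => 4) (bnd := fun _ => 0) (PB.const 4) (PB.const 0)
    (fun m q => (D.sz_step m q).trans (le_max_left _ _))

end Dat

end Pool.Agent.TH671.KS
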