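import Pool.Agent.TH671.KS.Main

set_option autoImplicit false

namespace Pool.Agent.TH671.KS

open Turing Pool.Agent.H583R2 Filter
open Pool.Agent.H545R2.KS (Machine Outputs K Separable PeqNP NPComplete Paddable
  pf_pairBits spl_pairBits pairBits_length pairBits_inj
  pf_of_polyTime polyTime_of_pf pf_eval pf_pow poly_le_pow eval_mono)
open Pool.Agent.NPC (PolyTime pairBits InNP InP NPHard Reduces)

/-- `U` is a universal Turing machine: every machine `M` has a code `e` such that whatever `M`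
outputs on an input `y` within `t` steps, `U` outputs on the input `e ++ y` within a number of
steps which is polynomial in `t + |y|`. -/
def IsUniversal (U : Machine) : Prop :=
  ∀ M : Machine, ∃ (e : List Bool) (c : ℕ), ∀ (y x : List Bool) (t : ℕ), Outputs M y x t →
    Outputs U (e ++ y) x ((t + y.length + 2) ^ c)

theorem Outputs.mono {M : Machine} {y x : List Bool} {s t : ℕ} (h : Outputs M y x s)
    (hst : s ≤ t) : Outputs M y x t := by
  obtain ⟨h⟩ := h
  exact ⟨⟨h.toEvalsTo, h.steps_le_m.trans hst⟩⟩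

/-- the string `F y` has a short description -/
theorem exists_index {U : Machine} (hU : IsUniversal U) {F : List Bool → List Bool}
    (hF : HP F (fun y => 2 ^ 2 ^ idx (rr y))) :
    ∃ c : ℕ, ∀ (i : ℕ) (e : Option Bool), ∃ y' : List Bool,
      y'.length ≤ Nat.log 2 (i + 1) + c ∧ Outputs U y' (F (ds e (str i))) ((2 ^ 2 ^ i) ^ c) := by
  obtain ⟨k1, hk1⟩ := hF.size
  obtain ⟨C, hC, k, hk⟩ := hF
  obtain ⟨M, hM⟩ := exists_machine hC
  obtain ⟨e0, c0, h0⟩ := hU M
  refine ⟨e0.length + 2 + (6 * k + 6 * k1 + 12) * c0, fun i e => ⟨e0 ++ ds e (str i), ?_, ?_⟩⟩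
  · have h1 := le_idx (str i)
    rw [idx_str] at h1
    have h2 : (str i).length ≤ Nat.log 2 (i + 1) := Nat.le_log_of_pow_le (by norm_num) h1
    rw [List.length_append, ds_length]
    omega
  · set y := ds e (str i) with hy
    have h1 := h0 y (F y) _ (hM y)
    refine Outputs.mono h1 ?_
    have h2 := hk y
    have h3 := hk1 y
    have h4 : (F y).length < sz (F y) := length_lt_sz _
    beta_reduce at h2 h3
    rw [hy, rr_ds, idx_str, ← hy] at h2 h3
    have h5 := le_idx (str i)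
    rw [idx_str] at h5
    have h6 : (str i).length < 2 ^ (str i).length := Nat.lt_two_pow_self
    have h7 : i < 2 ^ i := Nat.lt_two_pow_self
    have h8 : 2 ^ i < 2 ^ 2 ^ i := Nat.lt_two_pow_self
    have h9 : y.length = (str i).length + 2 := by rw [hy, ds_length]
    have h10 := sz_str_le y
    set m := 2 ^ 2 ^ i with hm
    have hm2 : 2 ≤ m := by omega
    have h11 : m + sz y + 2 ≤ m ^ 6 := by
      have e1 : m ^ 6 = m ^ 5 * m := pow_succ _ _
      have e2 : 2 ^ 5 ≤ m ^ 5 := Nat.pow_le_pow_left hm2 5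
      have e3 : 32 * m ≤ m ^ 5 * m := Nat.mul_le_mul_right _ (by omega)
      omega
    have h12 : C y ≤ m ^ (6 * k) := by
      rw [pow_mul]
      exact h2.trans (Nat.pow_le_pow_left h11 k)
    have h13 : sz (F y) ≤ m ^ (6 * k1) := by
      rw [pow_mul]
      exact h3.trans (Nat.pow_le_pow_left h11 k1)
    have h14 : 9 * y.length + C y + 12 * (F y).length + 8 + y.length + 2 ≤
        m ^ (6 * k + 6 * k1 + 12) := by
      have p1 : 1 ≤ m ^ (6 * k) := Nat.one_le_pow _ _ (by omega)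
      have p2 : 1 ≤ m ^ (6 * k1) := Nat.one_le_pow _ _ (by omega)
      have e0 : m ^ (6 * k + 6 * k1 + 12) = (m ^ (6 * k) * m ^ (6 * k1)) * (m ^ 11 * m) := by
        rw [pow_add, pow_add]; ring
      rw [e0]
      have e1 : 2 ^ 11 ≤ m ^ 11 := Nat.pow_le_pow_left hm2 11
      have e2 : 2048 * m ≤ m ^ 11 * m := Nat.mul_le_mul_right _ (by omega)
      have e3 : m ^ (6 * k) ≤ m ^ (6 * k) * m ^ (6 * k1) := Nat.le_mul_of_pos_right _ p2
      have e4 : m ^ (6 * k1) ≤ m ^ (6 * k) * m ^ (6 * k1) := Nat.le_mul_of_pos_left _ p1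
      set P := m ^ (6 * k) * m ^ (6 * k1) with hP
      have e5 : 1 ≤ P := Nat.mul_le_mul p1 p2
      have e6 : P * (2048 * m) ≤ P * (m ^ 11 * m) := Nat.mul_le_mul_left _ e2
      have e7 : m ≤ P * m := Nat.le_mul_of_pos_left _ e5
      have e8 : P * 2 ≤ P * m := Nat.mul_le_mul_left _ hm2
      have e9 : P * (2048 * m) = 2048 * (P * m) := by ring
      omega
    calc (9 * y.length + C y + 12 * (F y).length + 8 + y.length + 2) ^ c0
        ≤ (m ^ (6 * k + 6 * k1 + 12)) ^ c0 := Nat.pow_le_pow_left h14 c0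
      _ = m ^ ((6 * k + 6 * k1 + 12) * c0) := by rw [← pow_mul]
      _ ≤ m ^ (e0.length + 2 + (6 * k + 6 * k1 + 12) * c0) :=
        Nat.pow_le_pow_right (by omega) (by omega)

/-- A set in `P` between `K ∩ A` and `A` is a finite variation of `A`. -/
theorem finite_diff {U : Machine} (hU : IsUniversal U) {g G : ℕ → ℕ}
    (hg : ∀ c, ∀ᶠ n in atTop, Nat.log 2 (Nat.log 2 (Nat.log 2 n)) + c ≤ g n)
    (hG : ∀ c, ∀ᶠ n in atTop, n ^ c ≤ G n) {A S : Set (List Bool)} (hA : NPComplete A)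
    (hP : Paddable A) (hS : InP S) (hKS : K U g G ∩ A ⊆ S) (hSA : S ⊆ A) : (A \ S).Finite := by
  by_contra hinf
  obtain ⟨⟨V, p, hV, hVA⟩, hhard⟩ := hA
  obtain ⟨Sd, hSd, hSdS⟩ := hS
  obtain ⟨P, hPp, hPad⟩ := hP
  -- the characteristic functions
  have pV : PF (fun z => V z == [true]) := PF.beqStr (pf_of_polyTime hV) (PF.const [true])
  have pσ : PF (fun x => Sd x == [true]) := PF.beqStr (pf_of_polyTime hSd) (PF.const [true])
  let D0 : Dat := ⟨fun z => V z == [true], p, fun x => Sd x == [true], fun _ => []⟩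
  obtain ⟨f, hf, hfB⟩ := hhard _ (BB_inNP D0 pV pσ)
  let D : Dat := ⟨fun z => V z == [true], p, fun x => Sd x == [true], fun a =>
    P (pairBits (f (pairBits (List.replicate a.1 true) a.2)) (List.replicate a.1 true))⟩
  have pr : PF (fun a : ℕ × List Bool => List.replicate a.1 true) :=
    PF.replicate PF.fst (PF.const true)
  have pf0 := pf_of_polyTime hf
  have pP := pf_of_polyTime hPp
  have ph : PF D.h := pP.comp (pf_pairBits (pf0.comp (pf_pairBits pr PF.snd)) pr)
  have hσ : ∀ x, D.σ x = true ↔ x ∈ S := by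
    intro x
    rw [hSdS x]
    change (Sd x == [true]) = true ↔ _
    rw [beq_iff_eq]
  have hh : ∀ m q, D.h (m, q) ∈ A ↔ D.R m q := by
    intro m q
    change P (pairBits (f (pairBits (List.replicate m true) q)) (List.replicate m true)) ∈ A ↔ _
    rw [(hPad _ _).1, ← hfB]
    change (pairBits _ _ = _ ∧ D0.R _ _) ↔ _
    rw [spl_pairBits, List.length_replicate]
    exact ⟨fun h => h.2, fun h => ⟨rfl, h⟩⟩
  have hlen : ∀ m q, m ≤ (D.h (m, q)).length := by
    intro m q
    have := (hPad (f (pairBits (List.replicate m true) q)) (List.replicate m true)).2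
    rw [List.length_replicate] at this
    exact this
  have hWA : ∀ m z, D.W m z = true → (spl z).1 ∈ A := by
    intro m z hz
    simp only [Dat.W, Bool.and_eq_true, beq_iff_eq, decide_eq_true_eq] at hz
    obtain ⟨h1, h2, -, -, -, h3⟩ := hz
    refine (hVA _).2 ⟨(spl z).2, h3, ?_⟩
    rw [h1]
    have h2' : (V z == [true]) = true := h2
    rwa [beq_iff_eq] at h2'
  obtain ⟨c, hc⟩ := exists_index hU (hp_out D pV pσ ph)
  -- large numbers
  obtain ⟨N1, hN1⟩ := eventually_atTop.1 (hg (c + 2))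
  obtain ⟨N2, hN2⟩ := eventually_atTop.1 (hG (2 * c + 1))
  obtain ⟨N, hNdef⟩ : ∃ N, N = N1 + N2 + 2 := ⟨_, rfl⟩
  -- a long string in `A \ S`
  obtain ⟨x, hx, hxl⟩ : ∃ x ∈ A \ S, 2 ^ 2 ^ (N * N + 2) < x.length := by
    by_contra hcon
    push Not at hcon
    refine hinf (Set.Finite.subset (List.finite_length_le Bool (2 ^ 2 ^ (N * N + 2))) ?_)
    intro x hx
    exact hcon x hx
  classical
  have hex : ∃ i, x.length ≤ 2 ^ 2 ^ i := by
    refine ⟨x.length, ?_⟩
    have h1 : x.length < 2 ^ x.length := Nat.lt_two_pow_self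
    have h2 : 2 ^ x.length < 2 ^ 2 ^ x.length := Nat.lt_two_pow_self
    omega
  obtain ⟨i, hi, hmin⟩ : ∃ i, x.length ≤ 2 ^ 2 ^ i ∧ ∀ j < i, ¬ x.length ≤ 2 ^ 2 ^ j :=
    ⟨Nat.find hex, Nat.find_spec hex, fun j hj => Nat.find_min hex hj⟩
  have hiN : N * N + 2 < i := by
    by_contra hcon
    push Not at hcon
    have : 2 ^ 2 ^ i ≤ 2 ^ 2 ^ (N * N + 2) :=
      Nat.pow_le_pow_right (by norm_num) (Nat.pow_le_pow_right (by norm_num) hcon)
    omega
  have hsq : ∀ j, 2 ^ 2 ^ (j + 1) = 2 ^ 2 ^ j * 2 ^ 2 ^ j := by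
    intro j
    rw [pow_succ 2 j, pow_mul, pow_two]
  obtain ⟨j, rfl⟩ : ∃ j, i = j + 1 := ⟨i - 1, by omega⟩
  have hxj : 2 ^ 2 ^ j < x.length := by
    have := hmin j (by omega)
    omega
  have hR : D.R (2 ^ 2 ^ (j + 1)) [] := by
    obtain ⟨w, hw1, hw2⟩ := (hVA x).1 hx.1
    refine ⟨pairBits x w, ?_⟩
    rw [List.nil_append]
    simp only [Dat.W, spl_pairBits, Bool.and_eq_true, beq_iff_eq, decide_eq_true_eq,
      Bool.not_eq_true']
    refine ⟨trivial, ?_, ?_, hi, ?_, hw1⟩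
    · change (V (pairBits x w) == [true]) = true
      rw [hw2]
      rfl
    · rw [← Bool.not_eq_true, hσ]
      exact hx.2
    · rw [hsq]
      exact Nat.mul_lt_mul'' hxj hxj
  obtain ⟨e, he1, he2, he3⟩ := D.main (A := A) (m := 2 ^ 2 ^ (j + 1)) (by
      rw [hsq]
      have : 2 ^ 1 ≤ 2 ^ 2 ^ j := Nat.pow_le_pow_right (by norm_num) Nat.one_le_two_pow
      nlinarith) (hWA _) (fun x hx => hSA ((hσ x).1 hx)) (hh _) (hlen _) hR
  set s := D.out (2 ^ 2 ^ (j + 1)) e with hs
  have hsS : s ∉ S := by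
    rw [← hσ, he2]
    simp
  refine hsS (hKS ⟨?_, he1⟩)
  have hsl : 2 ^ 2 ^ j ≤ s.length := by
    by_contra hcon
    push Not at hcon
    rw [hsq] at he3
    have := Nat.mul_lt_mul'' hcon hcon
    omega
  have hNs : N ≤ s.length := by
    have h1 : N ≤ j := by nlinarith
    have h2 : j < 2 ^ j := Nat.lt_two_pow_self
    have h3 : 2 ^ j < 2 ^ 2 ^ j := Nat.lt_two_pow_self
    omega
  obtain ⟨y', hy1, hy2⟩ := hc (j + 1) e
  rw [ee_ds, rr_ds, idx_str] at hy2
  refine ⟨y', ?_, _, ?_, hy2⟩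
  · refine le_trans ?_ (hN1 s.length (by omega))
    have h1 : 2 ^ j ≤ Nat.log 2 s.length := Nat.le_log_of_pow_le (by norm_num) hsl
    have h2 : j ≤ Nat.log 2 (Nat.log 2 s.length) := Nat.le_log_of_pow_le (by norm_num) h1
    have h3 : Nat.log 2 j ≤ Nat.log 2 (Nat.log 2 (Nat.log 2 s.length)) := Nat.log_mono_right h2
    have h4 : Nat.log 2 (j + 1 + 1) ≤ Nat.log 2 j + 2 := by
      have h5 : j + 1 + 1 ≤ j * 2 * 2 := by omega
      refine (Nat.log_mono_right h5).trans ?_
      rw [Nat.log_mul_base (by norm_num) (by omega), Nat.log_mul_base (by norm_num) (by omega)]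
    omega
  · refine lt_of_lt_of_le ?_ (hN2 s.length (by omega))
    have h1 : 2 ^ 2 ^ (j + 1) ≤ s.length ^ 2 := by
      rw [pow_two]; exact he3.le
    calc (2 ^ 2 ^ (j + 1)) ^ c ≤ (s.length ^ 2) ^ c := Nat.pow_le_pow_left h1 c
      _ = s.length ^ (2 * c) := by rw [← pow_mul]
      _ < s.length ^ (2 * c + 1) := Nat.pow_lt_pow_right (by omega) (by omega)

end Pool.Agent.TH671.KS
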