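import Pool.Agent.TH671.KS.Two

set_option autoImplicit false

namespace Pool.Agent.TH671.KS

open Turing Pool.Agent.H583R2 Filter
open Pool.Agent.H545R2.KS (Machine Outputs K Separable PeqNP NPComplete Paddable
  pf_pairBits spl_pairBits pairBits_length pairBits_inj
  pf_of_polyTime polyTime_of_pf pf_eval pf_pow poly_le_pow eval_mono)
open Pool.Agent.NPC (PolyTime pairBits InNP InP NPHard Reduces)

theorem hp_of {F : List Bool × ℕ → List Bool} (hF : PF F) :
    HP (fun y => F (y, 2 ^ 2 ^ idx (rr y))) (fun y => 2 ^ 2 ^ idx (rr y)) := by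
  have hr : PF rr := PF.tail (PF.tail PF.id)
  have h1 : HP (fun y : List Bool => (y, 2 ^ ((rr y).length + 1)))
      (fun y => 0 + 2 ^ ((rr y).length + 1)) :=
    HP.two_pow (f := fun y : List Bool => (rr y).length + 1)
      (HP.of_PF (PF.succ (PF.length hr)) (fun _ => 0))
  have h2 : HP (fun y : List Bool => idx (rr y)) (fun y => 0 + 2 ^ ((rr y).length + 1)) := by
    have h3 : PF (fun a : List Bool × ℕ => min (idx (rr a.1)) a.2) :=
      pf_idxCap (hr.comp PF.fst) PF.snd
    refine (HP.comp (HP.of_PF h3 (fun _ => 0)) h1 ⟨0, fun a => by simp⟩).congr ?_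
    intro y
    have := idx_lt (rr y)
    exact min_eq_left (by dsimp only; omega)
  have h3 : HP (fun y : List Bool => 2 ^ idx (rr y))
      (fun y => 0 + 2 ^ ((rr y).length + 1) + 2 ^ idx (rr y)) :=
    HP.comp (f := fun y : List Bool => (y, 2 ^ idx (rr y))) (g := fun p : List Bool × ℕ => p.2)
      (HP.of_PF PF.snd (fun _ => 0)) (HP.two_pow h2) ⟨0, fun a => by simp⟩
  have h4 := HP.two_pow h3
  refine (HP.comp (HP.of_PF hF (fun _ => 0)) h4 ⟨0, fun a => by simp⟩).mono ?_
  refine ⟨4, fun y => ?_⟩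
  have e1 := le_idx (rr y)
  have e2 : idx (rr y) < 2 ^ idx (rr y) := Nat.lt_two_pow_self
  have e3 : 2 ^ idx (rr y) < 2 ^ 2 ^ idx (rr y) := Nat.lt_two_pow_self
  have e7 : ∀ B : ℕ, B ^ 4 = B ^ 3 * B := fun B => pow_succ B 3
  rw [e7]
  have e8 : 2 ^ ((rr y).length + 1) = 2 ^ (rr y).length * 2 := pow_succ _ _
  set B := 2 ^ 2 ^ idx (rr y) + sz y + 2 with hB
  have e4 : 8 ≤ 2 ^ 3 := by norm_num
  have e5 : 2 ^ 3 ≤ B ^ 3 := Nat.pow_le_pow_left (by omega) 3
  have e6 : 8 * B ≤ B ^ 3 * B := Nat.mul_le_mul_right _ (by omega)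
  omega

/-- projections to `NP` languages -/
theorem inNP_of {R : List Bool → List Bool → Bool}
    (hR : PF (fun a : List Bool × List Bool => R a.1 a.2)) {b : Polynomial ℕ}
    (hb : ∀ u r, R u r = true → r.length ≤ b.eval u.length) :
    InNP {u | ∃ r, R u r = true} := by
  have h1 : PF (fun v : List Bool => R (spl v).1 (spl v).2) :=
    PF.comp (g := fun a : List Bool × List Bool => R a.1 a.2) (f := spl) hR (PF.spl PF.id)
  have hPT : PolyTime (fun v => [R (spl v).1 (spl v).2]) :=
    polyTime_of_pf (PF.cons h1 (PF.const []))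
  refine ⟨_, b, hPT, fun u => ?_⟩
  constructor
  · rintro ⟨r, hr⟩
    refine ⟨r, hb u r hr, ?_⟩
    rw [spl_pairBits, List.cons.injEq]
    exact ⟨hr, rfl⟩
  · rintro ⟨r, -, hr⟩
    rw [spl_pairBits, List.cons.injEq] at hr
    exact ⟨r, hr.1⟩

/-- finite variations of sets with a polynomial-time characteristic function -/
theorem inP_of_finite {A : Set (List Bool)} {s : List Bool → Bool} (hs : PF s)
    (h1 : ∀ x, s x = true → x ∈ A) (h2 : {x | x ∈ A ∧ s x = false}.Finite) : InP A := by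
  classical
  obtain ⟨l, hl⟩ : ∃ l : List (List Bool), ∀ x, x ∈ l ↔ x ∈ A ∧ s x = false :=
    ⟨h2.toFinset.toList, fun x => by simp⟩
  have h3 : PF (fun x => s x || l.any (fun y => y == x)) :=
    PF.or hs (PF.any (l := fun _ => l) (f := fun x y => y == x) (PF.const l)
      (PF.beqStr PF.snd PF.fst))
  have hPT : PolyTime (fun x => [s x || l.any (fun y => y == x)]) :=
    polyTime_of_pf (PF.cons h3 (PF.const []))
  refine ⟨_, hPT, fun x => ?_⟩
  rw [List.cons.injEq]
  simp only [and_true, Bool.or_eq_true, List.any_eq_true, beq_iff_eq, exists_eq_right, hl]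
  constructor
  · intro hx
    by_cases h : s x = true
    · exact Or.inl h
    · exact Or.inr ⟨hx, by simpa using h⟩
  · rintro (h | h)
    · exact h1 x h
    · exact h.1

/-- A set in `P` which agrees with `A` on `K` gives a polynomial-time algorithm for `A`. -/
theorem inP_of_agree {U : Machine} (hU : IsUniversal U) {g G : ℕ → ℕ}
    (hg : ∀ c, ∀ᶠ n in atTop, Nat.log 2 (Nat.log 2 (Nat.log 2 n)) + c ≤ g n)
    (hG : ∀ c, ∀ᶠ n in atTop, n ^ c ≤ G n) {A S : Set (List Bool)} (hA : NPComplete A)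
    (hP : Paddable A) (hS : InP S) (hKS : ∀ x ∈ K U g G, (x ∈ S ↔ x ∈ A)) : InP A := by
  by_contra hinf
  obtain ⟨⟨V, p, hV, hVA⟩, hhard⟩ := hA
  obtain ⟨Sd, hSd, hSdS⟩ := hS
  obtain ⟨P, hPp, hPad⟩ := hP
  have pP := pf_of_polyTime hPp
  -- the characteristic functions
  have pV : PF (fun z => V z == [true]) := PF.beqStr (pf_of_polyTime hV) (PF.const [true])
  have pσ : PF (fun x => Sd x == [true]) := PF.beqStr (pf_of_polyTime hSd) (PF.const [true])
  have hσ : ∀ x, (Sd x == [true]) = true ↔ x ∈ S := by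
    intro x
    rw [hSdS x, beq_iff_eq]
  -- the reduction for the search for certificates
  obtain ⟨hX, pX, hhX, hlX⟩ : ∃ hX : List Bool × List Bool → List Bool, PF hX ∧
      (∀ x q, hX (x, q) ∈ A ↔ ∃ r, ((V (pairBits x (q ++ r)) == [true]) &&
        decide ((q ++ r).length ≤ p.eval x.length)) = true) ∧
      (∀ x q, x.length ≤ (hX (x, q)).length) := by
    have h1 : PF (fun a : List Bool × List Bool => (spl a.1).1) := PF.fst' (PF.spl PF.fst)
    have h2 : PF (fun a : List Bool × List Bool => (spl a.1).2 ++ a.2) :=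
      PF.append (PF.snd' (PF.spl PF.fst)) PF.snd
    have h3 : PF (fun a : List Bool × List Bool =>
        (pairBits (spl a.1).1 (spl a.1).2 == a.1) &&
          ((V (pairBits (spl a.1).1 ((spl a.1).2 ++ a.2)) == [true]) &&
          decide (((spl a.1).2 ++ a.2).length ≤ p.eval (spl a.1).1.length))) :=
      PF.and (PF.beqStr (pf_pairBits h1 (PF.snd' (PF.spl PF.fst))) PF.fst)
        (PF.and (pV.comp (pf_pairBits h1 h2)) (PF.le (PF.length h2) (pf_eval (PF.length h1) p)))
    obtain ⟨f, hf, hfB⟩ := hhard _ (inNP_of (R := fun u r =>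
        (pairBits (spl u).1 (spl u).2 == u) &&
          ((V (pairBits (spl u).1 ((spl u).2 ++ r)) == [true]) &&
          decide (((spl u).2 ++ r).length ≤ p.eval (spl u).1.length))) h3 (b := p) (by
      intro u r hr
      simp only [Bool.and_eq_true, beq_iff_eq, decide_eq_true_eq, List.length_append] at hr
      obtain ⟨h4, -, h5⟩ := hr
      have e2 : (spl u).1.length ≤ u.length := by
        have := pairBits_length (spl u).1 (spl u).2
        rw [h4] at this
        omega
      have := eval_mono p e2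
      omega))
    refine ⟨fun a => P (pairBits (f (pairBits a.1 a.2)) a.1),
      pP.comp (pf_pairBits ((pf_of_polyTime hf).comp (pf_pairBits PF.fst PF.snd)) PF.fst),
      fun x q => ?_, fun x q => (hPad _ _).2⟩
    rw [(hPad _ _).1, ← hfB]
    simp only [Set.mem_ofPred_eq, spl_pairBits, beq_self_eq_true, Bool.true_and]
  -- data without the second reduction
  let D0 : Dat2 := ⟨fun z => V z == [true], p, fun x => Sd x == [true], hX, fun _ => []⟩
  have pW : PF (fun a : ℕ × List Bool => D0.W a.1 a.2) := D0.pf_W pV pσ pX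
  obtain ⟨hT, pT, hhT, hlT⟩ : ∃ hT : ℕ × List Bool → List Bool, PF hT ∧
      (∀ m q, hT (m, q) ∈ A ↔ ∃ r, D0.W m (q ++ r) = true) ∧
      (∀ m q, m ≤ (hT (m, q)).length) := by
    have h1 : PF (fun a : List Bool × List Bool => (spl a.1).1) := PF.fst' (PF.spl PF.fst)
    have h2 : PF (fun a : List Bool × List Bool => (spl a.1).2 ++ a.2) :=
      PF.append (PF.snd' (PF.spl PF.fst)) PF.snd
    have h4 : PF (fun a : List Bool × List Bool => D0.W (spl a.1).1.length ((spl a.1).2 ++ a.2)) :=
      PF.comp (g := fun a : ℕ × List Bool => D0.W a.1 a.2)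
        (f := fun a : List Bool × List Bool => ((spl a.1).1.length, (spl a.1).2 ++ a.2)) pW
        (PF.pair (PF.length h1) h2)
    have h3 : PF (fun a : List Bool × List Bool =>
        (pairBits (spl a.1).1 (spl a.1).2 == a.1) &&
          D0.W (spl a.1).1.length ((spl a.1).2 ++ a.2)) :=
      PF.and (PF.beqStr (pf_pairBits h1 (PF.snd' (PF.spl PF.fst))) PF.fst) h4
    obtain ⟨f, hf, hfB⟩ := hhard _ (inNP_of (R := fun u r =>
        (pairBits (spl u).1 (spl u).2 == u) && D0.W (spl u).1.length ((spl u).2 ++ r)) h3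
      (b := 2 * Polynomial.X + 1 + p) (by
      intro u r hr
      simp only [Bool.and_eq_true, beq_iff_eq] at hr
      obtain ⟨h4, h5⟩ := hr
      have e1 := D0.W_length h5
      have e2 : (spl u).1.length ≤ u.length := by
        have := pairBits_length (spl u).1 (spl u).2
        rw [h4] at this
        omega
      have e3 := eval_mono p e2
      rw [List.length_append] at e1
      simp only [Polynomial.eval_add, Polynomial.eval_mul, Polynomial.eval_X,
        Polynomial.eval_one, Polynomial.eval_ofNat]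
      unfold Dat2.bd at e1
      change _ ≤ 2 * (spl u).1.length + 1 + p.eval (spl u).1.length at e1
      omega))
    have pr : PF (fun a : ℕ × List Bool => List.replicate a.1 true) :=
      PF.replicate PF.fst (PF.const true)
    refine ⟨fun a => P (pairBits (f (pairBits (List.replicate a.1 true) a.2))
      (List.replicate a.1 true)), pP.comp (pf_pairBits ((pf_of_polyTime hf).comp
        (pf_pairBits pr PF.snd)) pr), fun m q => ?_, fun m q => ?_⟩
    · rw [(hPad _ _).1, ← hfB]
      simp only [Set.mem_ofPred_eq, spl_pairBits, beq_self_eq_true, Bool.true_and,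
        List.length_replicate]
    · have := (hPad (f (pairBits (List.replicate m true) q)) (List.replicate m true)).2
      rw [List.length_replicate] at this
      exact this
  let D : Dat2 := ⟨fun z => V z == [true], p, fun x => Sd x == [true], hX, hT⟩
  have hCA : ∀ x w, D.C x w = true → x ∈ A := by
    intro x w hw
    have hw' : ((V (pairBits x w) == [true]) && decide (w.length ≤ p.eval x.length)) = true := hw
    rw [Bool.and_eq_true, beq_iff_eq, decide_eq_true_eq] at hw'
    exact (hVA x).2 ⟨w, hw'.2, hw'.1⟩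
  -- infinitely many failures
  have hinf' : ¬ {x | x ∈ A ∧ D.suc x = false}.Finite := fun h =>
    hinf (inP_of_finite (D.pf_suc pV pσ pX) (fun x hx => hCA x _ hx) h)
  obtain ⟨c, hc⟩ := exists_index hU (hp_of (D.pf_out pV pσ pX pT))
  -- large numbers
  obtain ⟨N1, hN1⟩ := eventually_atTop.1 (hg (c + 2))
  obtain ⟨N2, hN2⟩ := eventually_atTop.1 (hG (2 * c + 1))
  obtain ⟨N, hNdef⟩ : ∃ N, N = N1 + N2 + 2 := ⟨_, rfl⟩
  -- a long failure
  obtain ⟨x, hx, hxl⟩ : ∃ x ∈ {x | x ∈ A ∧ D.suc x = false}, 2 ^ 2 ^ (N * N + 2) < x.length := by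
    by_contra hcon
    push Not at hcon
    refine hinf' (Set.Finite.subset (List.finite_length_le Bool (2 ^ 2 ^ (N * N + 2))) ?_)
    intro x hx
    exact hcon x hx
  classical
  have hex : ∃ i, x.length ≤ 2 ^ 2 ^ i := by
    refine ⟨x.length, ?_⟩
    have h1 : x.length < 2 ^ x.length := Nat.lt_two_pow_self
    have h2 : 2 ^ x.length < 2 ^ 2 ^ x.length := Nat.lt_two_pow_self
    omega
  obtain ⟨i, hi, hmin⟩ : ∃ i, x.length ≤ 2 ^ 2 ^ i ∧ ∀ j < i, ¬ x.length ≤ 2 ^ 2 ^ j :=
    ⟨Nat.find hex, Nat.find_spec hex, fun j hj => Nat.find_min hex hj⟩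
  have hiN : N * N + 2 < i := by
    by_contra hcon
    push Not at hcon
    have : 2 ^ 2 ^ i ≤ 2 ^ 2 ^ (N * N + 2) :=
      Nat.pow_le_pow_right (by norm_num) (Nat.pow_le_pow_right (by norm_num) hcon)
    omega
  have hsq : ∀ j, 2 ^ 2 ^ (j + 1) = 2 ^ 2 ^ j * 2 ^ 2 ^ j := by
    intro j
    rw [pow_succ 2 j, pow_mul, pow_two]
  obtain ⟨j, rfl⟩ : ∃ j, i = j + 1 := ⟨i - 1, by omega⟩
  have hxj : 2 ^ 2 ^ j < x.length := by
    have := hmin j (by omega)
    omega
  have hR : ∃ r, D.W (2 ^ 2 ^ (j + 1)) r = true := by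
    obtain ⟨w, hw1, hw2⟩ := (hVA x).1 hx.1
    refine ⟨pairBits x w, ?_⟩
    simp only [Dat2.W, spl_pairBits, Bool.and_eq_true, beq_iff_eq, decide_eq_true_eq,
      Bool.not_eq_true']
    refine ⟨trivial, ?_, hx.2, hi, ?_⟩
    · change ((V (pairBits x w) == [true]) && decide (w.length ≤ p.eval x.length)) = true
      rw [hw2, Bool.and_eq_true, decide_eq_true_eq]
      exact ⟨rfl, hw1⟩
    · rw [hsq]
      exact Nat.mul_lt_mul'' hxj hxj
  obtain ⟨e, he1, he3⟩ := D.main (A := A) (m := 2 ^ 2 ^ (j + 1)) (by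
      rw [hsq]
      have : 2 ^ 1 ≤ 2 ^ 2 ^ j := Nat.pow_le_pow_right (by norm_num) Nat.one_le_two_pow
      nlinarith) hhX (hhT _) hlX (hlT _) hR
  set s := D.out (2 ^ 2 ^ (j + 1)) e with hs
  have hsl : 2 ^ 2 ^ j ≤ s.length := by
    by_contra hcon
    push Not at hcon
    rw [hsq] at he3
    have := Nat.mul_lt_mul'' hcon hcon
    omega
  have hNs : N ≤ s.length := by
    have h1 : N ≤ j := by nlinarith
    have h2 : j < 2 ^ j := Nat.lt_two_pow_self
    have h3 : 2 ^ j < 2 ^ 2 ^ j := Nat.lt_two_pow_self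
    omega
  refine he1 (((hσ s)).trans (hKS s ?_))
  obtain ⟨y', hy1, hy2⟩ := hc (j + 1) e
  dsimp only at hy2
  rw [ee_ds, rr_ds, idx_str] at hy2
  refine ⟨y', ?_, _, ?_, hy2⟩
  · refine le_trans ?_ (hN1 s.length (by omega))
    have h1 : 2 ^ j ≤ Nat.log 2 s.length := Nat.le_log_of_pow_le (by norm_num) hsl
    have h2 : j ≤ Nat.log 2 (Nat.log 2 s.length) := Nat.le_log_of_pow_le (by norm_num) h1
    have h3 : Nat.log 2 j ≤ Nat.log 2 (Nat.log 2 (Nat.log 2 s.length)) := Nat.log_mono_right h2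
    have h4 : Nat.log 2 (j + 1 + 1) ≤ Nat.log 2 j + 2 := by
      have h5 : j + 1 + 1 ≤ j * 2 * 2 := by omega
      refine (Nat.log_mono_right h5).trans ?_
      rw [Nat.log_mul_base (by norm_num) (by omega), Nat.log_mul_base (by norm_num) (by omega)]
    omega
  · refine lt_of_lt_of_le ?_ (hN2 s.length (by omega))
    have h1 : 2 ^ 2 ^ (j + 1) ≤ s.length ^ 2 := by
      rw [pow_two]; exact he3.le
    calc (2 ^ 2 ^ (j + 1)) ^ c ≤ (s.length ^ 2) ^ c := Nat.pow_le_pow_left h1 c
      _ = s.length ^ (2 * c) := by rw [← pow_mul]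
      _ < s.length ^ (2 * c + 1) := Nat.pow_lt_pow_right (by omega) (by omega)

end Pool.Agent.TH671.KS
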