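import Pool.Agent.H545R2.KS.Base
import Pool.Agent.H545R2.KS.Defs
import Pool.Agent.H583R2.Expo

set_option autoImplicit false

/-!
Running times which are polynomial in a given quantity, and machines with individual time bounds.
-/

namespace Pool.Agent.TH671.KS

open Turing Pool.Agent.H583R2
open Pool.Agent.H545R2.KS (Machine Outputs)

/-- the machine of a program acting on the tree coding the input -/
def mk (p : Prog) : Machine where
  tm := finTM (.seq inP (.seq p outP))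
  inputAlphabet := Equiv.refl _
  outputAlphabet := Equiv.refl _

theorem outputs_mk {p : Prog} {x y : List Bool} {n : ℕ}
    (h : EvL p ⟨ser (enc x), [], [], [], []⟩ ⟨ser (enc y), [], [], [], []⟩ n) :
    Outputs (mk p) x y (9 * x.length + n + 12 * y.length + 8) := by
  have h1 := inP_spec x
  have h3 := outP_spec y
  obtain ⟨i, hi, h4⟩ := h1.seq (h.seq h3)
  obtain ⟨h5⟩ := finTM_outputs _ _ _ _ h4
  have e1 : List.map (mk p).inputAlphabet.invFun x = x := by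
    change List.map id x = x
    simp
  have e2 : List.map (mk p).outputAlphabet.invFun y = y := by
    change List.map id y = y
    simp
  unfold Outputs
  rw [e1, e2]
  exact ⟨⟨h5.toEvalsTo, h5.steps_le_m.trans (by omega)⟩⟩

/-- a typed program gives a machine, with a time bound for each input -/
theorem exists_machine {f : List Bool → List Bool} {c : List Bool → ℕ} (h : Has f c) :
    ∃ M : Machine, ∀ x, Outputs M x (f x) (9 * x.length + c x + 12 * (f x).length + 8) := by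
  obtain ⟨p, hp⟩ := h
  refine ⟨mk p, fun x => ?_⟩
  have h2 := hp x [] [] []
  rw [List.append_nil, List.append_nil] at h2
  exact outputs_mk h2

section
variable {α β γ : Type} [TEnc α] [TEnc β] [TEnc γ]

/-- `f` is computed in time polynomial in `M a` and the size of `a` -/
def HP (f : α → β) (M : α → ℕ) : Prop :=
  ∃ c : α → ℕ, Has f c ∧ ∃ k, ∀ a, c a ≤ (M a + sz a + 2) ^ k

theorem HP.size {f : α → β} {M : α → ℕ} (h : HP f M) :
    ∃ k, ∀ a, sz (f a) ≤ (M a + sz a + 2) ^ k := by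
  obtain ⟨c, hc, k, hk⟩ := h
  refine ⟨k + 1, fun a => (hc.size a).trans ?_⟩
  have h1 := hk a
  have h2 : 1 ≤ (M a + sz a + 2) ^ k := Nat.one_le_pow _ _ (by omega)
  rw [pow_succ]
  nlinarith

theorem HP.of_PF {f : α → β} (h : PF f) (M : α → ℕ) : HP f M := by
  obtain ⟨c, ⟨k, hk⟩, hc⟩ := h
  exact ⟨c, hc, k, fun a => (hk a).trans (Nat.pow_le_pow_left (by omega) k)⟩

theorem HP.congr {f g : α → β} {M : α → ℕ} (h : HP f M) (e : ∀ a, f a = g a) : HP g M := by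
  rwa [show g = f from (funext e).symm]

theorem HP.mono {f : α → β} {M N : α → ℕ} (h : HP f M)
    (hN : ∃ k, ∀ a, M a ≤ (N a + sz a + 2) ^ k) : HP f N := by
  obtain ⟨c, hc, k, hk⟩ := h
  obtain ⟨l, hl⟩ := hN
  refine ⟨c, hc, (l + 2) * k, fun a => (hk a).trans ?_⟩
  rw [pow_mul]
  refine Nat.pow_le_pow_left ?_ k
  have h1 := hl a
  have h2 : 1 ≤ (N a + sz a + 2) ^ l := Nat.one_le_pow _ _ (by omega)
  rw [pow_add]
  set B := N a + sz a + 2 with hB
  have h3 : 2 ≤ B := by omega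
  have h4 : B ^ l * (2 * B) ≤ B ^ l * B ^ 2 := Nat.mul_le_mul_left _ (by nlinarith)
  nlinarith

theorem HP.comp {f : α → β} {g : β → γ} {M : α → ℕ} {N : β → ℕ} (hg : HP g N) (hf : HP f M)
    (hN : ∃ k, ∀ a, N (f a) ≤ (M a + sz a + 2) ^ k) : HP (fun a => g (f a)) M := by
  obtain ⟨ks, hs⟩ := hf.size
  obtain ⟨c, hc, k, hk⟩ := hf
  obtain ⟨d, hd, l, hl⟩ := hg
  obtain ⟨j, hj⟩ := hN
  refine ⟨_, Has.comp hd hc, k + (ks + j + 2) * l + 1, fun a => ?_⟩
  have h1 := hk a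
  have h2 := hl (f a)
  have h3 := hj a
  have h4 := hs a
  set B := M a + sz a + 2 with hB
  have hB2 : 2 ≤ B := by omega
  have p1 : 1 ≤ B ^ ks := Nat.one_le_pow _ _ (by omega)
  have p2 : 1 ≤ B ^ j := Nat.one_le_pow _ _ (by omega)
  have h5 : N (f a) + sz (f a) + 2 ≤ B ^ (ks + j + 2) := by
    have e : B ^ (ks + j + 2) = B ^ ks * B ^ j * (B * B) := by ring
    rw [e]
    have h6 : B ^ j + B ^ ks + 2 ≤ B ^ ks * B ^ j * 4 := by nlinarith
    have h7 : B ^ ks * B ^ j * 4 ≤ B ^ ks * B ^ j * (B * B) :=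
      Nat.mul_le_mul_left _ (by nlinarith)
    omega
  have h8 : d (f a) ≤ B ^ ((ks + j + 2) * l) := by
    refine h2.trans ?_
    rw [pow_mul]
    exact Nat.pow_le_pow_left h5 l
  have p3 : 1 ≤ B ^ k := Nat.one_le_pow _ _ (by omega)
  have p4 : 1 ≤ B ^ ((ks + j + 2) * l) := Nat.one_le_pow _ _ (by omega)
  have e : B ^ (k + (ks + j + 2) * l + 1) = B ^ k * B ^ ((ks + j + 2) * l) * B := by ring
  rw [e]
  have h9 : B ^ k + B ^ ((ks + j + 2) * l) ≤ B ^ k * B ^ ((ks + j + 2) * l) * 2 := by nlinarith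
  have h10 : B ^ k * B ^ ((ks + j + 2) * l) * 2 ≤ B ^ k * B ^ ((ks + j + 2) * l) * B :=
    Nat.mul_le_mul_left _ hB2
  omega

theorem HP.pair {f : α → β} {g : α → γ} {M : α → ℕ} (hf : HP f M) (hg : HP g M) :
    HP (fun a => (f a, g a)) M := by
  obtain ⟨k1, h1⟩ := hf.size
  obtain ⟨k2, h2⟩ := hg.size
  obtain ⟨c, hc, k, hk⟩ := hf
  obtain ⟨d, hd, l, hl⟩ := hg
  refine ⟨_, Has.pair hc hd, k1 + k2 + k + l + 8, fun a => ?_⟩
  have a1 := h1 a
  have a2 := h2 a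
  have a3 := hk a
  have a4 := hl a
  set B := M a + sz a + 2 with hB
  have hB2 : 2 ≤ B := by omega
  have p1 : 1 ≤ B ^ k1 := Nat.one_le_pow _ _ (by omega)
  have p2 : 1 ≤ B ^ k2 := Nat.one_le_pow _ _ (by omega)
  have p3 : 1 ≤ B ^ k := Nat.one_le_pow _ _ (by omega)
  have p4 : 1 ≤ B ^ l := Nat.one_le_pow _ _ (by omega)
  have q : ∀ a b : ℕ, 1 ≤ a → 1 ≤ b → a ≤ a * b := fun a b _ hb => Nat.le_mul_of_pos_right a hb
  have p12 : 1 ≤ B ^ k1 * B ^ k2 := Nat.mul_le_mul p1 p2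
  have p34 : 1 ≤ B ^ k * B ^ l := Nat.mul_le_mul p3 p4
  have e : B ^ (k1 + k2 + k + l + 8) = (B ^ k1 * B ^ k2) * (B ^ k * B ^ l) * (B * B ^ 7) := by
    ring
  rw [e]
  set P := (B ^ k1 * B ^ k2) * (B ^ k * B ^ l) with hP
  have u0 : 1 ≤ P := Nat.mul_le_mul p12 p34
  have u1 : B ^ k1 ≤ P := (q _ _ p1 p2).trans (q _ _ p12 p34)
  have u2 : B ^ k2 ≤ P := by
    refine le_trans ?_ (q _ _ p12 p34)
    rw [mul_comm]
    exact q _ _ p2 p1
  have u34 : B ^ k * B ^ l ≤ P := Nat.le_mul_of_pos_left _ p12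
  have u3 : B ^ k ≤ P := (q _ _ p3 p4).trans u34
  have u4 : B ^ l ≤ P := (Nat.le_mul_of_pos_left _ p3).trans u34
  have b7 : 128 ≤ B ^ 7 := by
    calc 128 = 2 ^ 7 := by norm_num
      _ ≤ B ^ 7 := Nat.pow_le_pow_left hB2 7
  have u5 : P * (B * 128) ≤ P * (B * B ^ 7) := Nat.mul_le_mul_left _ (Nat.mul_le_mul_left _ b7)
  have u6 : sz a ≤ B := by omega
  have u7 : B ≤ P * B := Nat.le_mul_of_pos_left _ u0
  have u8 : P * 2 ≤ P * B := Nat.mul_le_mul_left _ hB2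
  have u9 : P * (B * 128) = 128 * (P * B) := by ring
  omega

/-- computing a power of two -/
theorem HP.two_pow {f : α → ℕ} {M : α → ℕ} (hf : HP f M) :
    HP (fun a => (a, 2 ^ f a)) (fun a => M a + 2 ^ f a) := by
  have h1 : HP (fun a : α => (a, f a)) M := (HP.of_PF PF.id M).pair hf
  obtain ⟨C, hC, hH⟩ := has_exp (α := α × ℕ) (β := α × ℕ) (m := fun p => p.2) PF.snd
    (f := fun q => (q.1.1, q.2)) (PF.pair (PF.fst' PF.fst) PF.snd)
  obtain ⟨k, hk⟩ := hC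
  have h2 : HP (fun p : α × ℕ => (p.1, 2 ^ p.2)) (fun p => 2 ^ p.2) := by
    refine ⟨_, hH, 3 * k, fun p => (hk _).trans ?_⟩
    rw [pow_mul]
    refine Nat.pow_le_pow_left ?_ k
    dsimp only
    rw [sz_pair, sz_nat]
    have : (2 ^ p.2 + sz p + 2) ^ 3 = (2 ^ p.2 + sz p + 2) * (2 ^ p.2 + sz p + 2) ^ 2 := by ring
    rw [this]
    have h5 := Nat.one_le_two_pow (n := p.2)
    have h3 : 4 ≤ (2 ^ p.2 + sz p + 2) ^ 2 := by
      have : (2:ℕ) ^ 2 ≤ (2 ^ p.2 + sz p + 2) ^ 2 := Nat.pow_le_pow_left (by omega) 2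
      simpa using this
    have h4 : (2 ^ p.2 + sz p + 2) * 4 ≤ (2 ^ p.2 + sz p + 2) * (2 ^ p.2 + sz p + 2) ^ 2 :=
      Nat.mul_le_mul_left _ h3
    omega
  refine HP.comp (M := fun a => M a + 2 ^ f a) h2 (h1.mono ⟨1, fun a => ?_⟩) ⟨1, fun a => ?_⟩
  · have h5 := Nat.one_le_two_pow (n := f a)
    rw [pow_one]; omega
  · have h5 := Nat.one_le_two_pow (n := f a)
    rw [pow_one]; dsimp only; omega

end

end Pool.Agent.TH671.KS
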