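import Pool.Agent.TH671.KS.Thm

set_option autoImplicit false

/-!
A set in `P` which agrees with `A` on `K` gives a polynomial-time algorithm for `A`.
-/

namespace Pool.Agent.TH671.KS

open Turing Pool.Agent.H583R2 Filter
open Pool.Agent.H545R2.KS (Machine Outputs K Separable PeqNP NPComplete Paddable
  pf_pairBits spl_pairBits pairBits_length pairBits_inj
  pf_of_polyTime polyTime_of_pf pf_eval pf_pow poly_le_pow eval_mono)
open Pool.Agent.NPC (PolyTime pairBits InNP InP NPHard Reduces)

/-! ### a prefix search guided by an unreliable oracle -/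

/-- one step -/
def stp (W s : List Bool → Bool) (q : List Bool) : List Bool :=
  if W q then q else if s (q ++ [false]) then q ++ [false] else
    if s (q ++ [true]) then q ++ [true] else q

/-- the extension of the final state -/
def ext (e : Option Bool) : List Bool :=
  match e with
  | none => []
  | some b => [b]

theorem stp_cases (W s : List Bool → Bool) (q : List Bool) :
    stp W s q = q ∨ (stp W s q).length = q.length + 1 ∧ s (stp W s q) = true := by
  unfold stp
  split_ifs with h1 h2 h3
  · exact Or.inl rfl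
  · exact Or.inr ⟨by simp, h2⟩
  · exact Or.inr ⟨by simp, h3⟩
  · exact Or.inl rfl

theorem stp_iter (W s : List Bool → Bool) (n : ℕ) :
    (((stp W s)^[n] []) = [] ∨ s ((stp W s)^[n] []) = true) ∧
      (((stp W s)^[n] []).length = n ∨
        stp W s ((stp W s)^[n] []) = (stp W s)^[n] []) := by
  induction n with
  | zero => exact ⟨Or.inl rfl, Or.inl rfl⟩
  | succ n ih =>
    rw [Function.iterate_succ_apply']
    rcases stp_cases W s ((stp W s)^[n] []) with h | ⟨h1, h2⟩
    · rw [h]
      exact ⟨ih.1, Or.inr h⟩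
    · refine ⟨Or.inr h2, ?_⟩
      rcases ih.2 with h3 | h3
      · left
        rw [h1, h3]
      · rw [h3] at h1
        omega

/-- if the search fails then the oracle is wrong about the final state or one of its children -/
theorem mistake (W s : List Bool → Bool) (B : ℕ) (hB : ∀ z, W z = true → z.length ≤ B)
    (hR : ∃ r, W r = true) (hW : W ((stp W s)^[B + 1] []) = false) :
    ∃ e, ¬ (s ((stp W s)^[B + 1] [] ++ ext e) = true ↔
      ∃ r, W ((stp W s)^[B + 1] [] ++ ext e ++ r) = true) := by
  obtain ⟨h1, h2⟩ := stp_iter W s (B + 1)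
  set q := (stp W s)^[B + 1] [] with hq
  by_contra hcon
  push Not at hcon
  have hn := hcon none
  have hf := hcon (some false)
  have ht := hcon (some true)
  simp only [ext, List.append_nil] at hn hf ht
  rcases h2 with h2 | h2
  · -- long
    rcases h1 with h1 | h1
    · rw [h1] at h2
      simp at h2
    · obtain ⟨r, hr⟩ := hn.1 h1
      have := hB _ hr
      rw [List.length_append] at this
      omega
  · -- fixed
    have hR' : ∃ r, W (q ++ r) = true := by
      rcases h1 with h1 | h1
      · rw [h1]
        simpa using hR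
      · exact hn.1 h1
    unfold stp at h2
    rw [if_neg (by rw [hW]; simp)] at h2
    by_cases hf' : s (q ++ [false]) = true
    · rw [if_pos hf'] at h2
      simp at h2
    · rw [if_neg hf'] at h2
      by_cases ht' : s (q ++ [true]) = true
      · rw [if_pos ht'] at h2
        simp at h2
      · obtain ⟨r, hr⟩ := hR'
        rcases r with _ | ⟨b, r⟩
        · rw [List.append_nil, hW] at hr
          simp at hr
        · cases b
          · exact hf' (hf.2 ⟨r, by rw [List.append_assoc]; exact hr⟩)
          · exact ht' (ht.2 ⟨r, by rw [List.append_assoc]; exact hr⟩)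

/-! ### the two searches -/

/-- data: a verifier `V` with certificate bound `p` for `A`, the characteristic function `σ` of
`S`, and the two reductions -/
structure Dat2 where
  V : List Bool → Bool
  p : Polynomial ℕ
  σ : List Bool → Bool
  hX : List Bool × List Bool → List Bool
  hT : ℕ × List Bool → List Bool

namespace Dat2

variable (D : Dat2)

/-- `w` is a certificate for `x` -/
def C (x w : List Bool) : Bool := D.V (pairBits x w) && decide (w.length ≤ D.p.eval x.length)

/-- oracle for the search for a certificate -/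
def sX (x q : List Bool) : Bool := D.σ (D.hX (x, q))

/-- result of the search for a certificate of `x` -/
def fX (x : List Bool) : List Bool := (stp (D.C x) (D.sX x))^[D.p.eval x.length + 1] []

/-- the search is successful -/
def suc (x : List Bool) : Bool := D.C x (D.fX x)

/-- `z` is a pair of a string `x` of length at most `m < |x| ^ 2` for which the search fails, and
of a certificate of `x` -/
def W (m : ℕ) (z : List Bool) : Bool :=
  (pairBits (spl z).1 (spl z).2 == z) && (D.C (spl z).1 (spl z).2 && (!(D.suc (spl z).1) &&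
    (decide ((spl z).1.length ≤ m) && decide (m < (spl z).1.length * (spl z).1.length))))

/-- bound for the length of `z` -/
def bd (m : ℕ) : ℕ := 2 * m + 1 + D.p.eval m

theorem W_length {m : ℕ} {z : List Bool} (h : D.W m z = true) : z.length ≤ D.bd m := by
  simp only [W, C, Bool.and_eq_true, beq_iff_eq, decide_eq_true_eq] at h
  obtain ⟨h1, ⟨-, h3⟩, -, h2, -⟩ := h
  rw [← h1, pairBits_length]
  have := eval_mono D.p h2
  unfold bd
  omega

/-- oracle for the search for `z` -/
def sT (m : ℕ) (q : List Bool) : Bool := D.σ (D.hT (m, q))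

/-- result of the search for `z` -/
def fT (m : ℕ) : List Bool := (stp (D.W m) (D.sT m))^[D.bd m + 1] []

/-- the candidates -/
def out (m : ℕ) (e : Option Bool) : List Bool :=
  if D.W m (D.fT m) then D.hX ((spl (D.fT m)).1, D.fX (spl (D.fT m)).1 ++ ext e)
  else D.hT (m, D.fT m ++ ext e)

/-- one of the candidates is a mistake of `σ` -/
theorem main {A : Set (List Bool)} {m : ℕ} (hm : 2 ≤ m)
    (hhX : ∀ x q, D.hX (x, q) ∈ A ↔ ∃ r, D.C x (q ++ r) = true)
    (hhT : ∀ q, D.hT (m, q) ∈ A ↔ ∃ r, D.W m (q ++ r) = true)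
    (hlX : ∀ x q, x.length ≤ (D.hX (x, q)).length)
    (hlT : ∀ q, m ≤ (D.hT (m, q)).length)
    (hR : ∃ r, D.W m r = true) :
    ∃ e, ¬ (D.σ (D.out m e) = true ↔ D.out m e ∈ A) ∧
      m < (D.out m e).length * (D.out m e).length := by
  by_cases hW : D.W m (D.fT m) = true
  · have h1 := hW
    simp only [W, Bool.and_eq_true, Bool.not_eq_true', decide_eq_true_eq] at h1
    obtain ⟨-, h2, h3, h4, h5⟩ := h1
    obtain ⟨e, he⟩ := mistake (D.C (spl (D.fT m)).1) (D.sX (spl (D.fT m)).1)
      (D.p.eval (spl (D.fT m)).1.length) (fun z hz => by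
        simp only [C, Bool.and_eq_true, decide_eq_true_eq] at hz
        exact hz.2) ⟨_, h2⟩ h3
    refine ⟨e, ?_, ?_⟩
    · unfold out
      rw [if_pos hW, hhX]
      exact he
    · unfold out
      rw [if_pos hW]
      have h6 := hlX (spl (D.fT m)).1 (D.fX (spl (D.fT m)).1 ++ ext e)
      exact lt_of_lt_of_le h5 (Nat.mul_le_mul h6 h6)
  · obtain ⟨e, he⟩ := mistake (D.W m) (D.sT m) (D.bd m) (fun z hz => D.W_length hz) hR
      (by rw [← Bool.not_eq_true]; exact hW)
    refine ⟨e, ?_, ?_⟩
    · unfold out
      rw [if_neg hW, hhT]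
      exact he
    · unfold out
      rw [if_neg hW]
      have h6 := hlT (D.fT m ++ ext e)
      nlinarith

/-! ### polynomial time -/

section
variable {α : Type} [TEnc α]

theorem pf_stp {W s : α → List Bool → Bool} (hW : PF (fun a : α × List Bool => W a.1 a.2))
    (hs : PF (fun a : α × List Bool => s a.1 a.2)) :
    PF (fun a : α × List Bool => stp (W a.1) (s a.1) a.2) := by
  have e : ∀ b : Bool, PF (fun a : α × List Bool => a.2 ++ [b]) := fun b =>
    PF.append PF.snd (PF.const [b])
  exact PF.ite hW PF.snd (PF.ite (hs.comp (PF.pair PF.fst (e false)))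
    (e false) (PF.ite (hs.comp (PF.pair PF.fst (e true))) (e true) PF.snd))

theorem sz_stp (W s : List Bool → Bool) (q : List Bool) : sz (stp W s q) ≤ sz q + 4 := by
  have h : ∀ b : Bool, sz (q ++ [b]) ≤ sz q + 4 := by
    intro b
    have h1 := sz_append q [b]
    have h2 := sz_bool b
    rw [sz_cons, sz_nil] at h1
    omega
  unfold stp
  split_ifs
  · omega
  · exact h _
  · exact h _
  · omega

theorem pf_search {W s : α → List Bool → Bool} {n : α → ℕ}
    (hW : PF (fun a : α × List Bool => W a.1 a.2))
    (hs : PF (fun a : α × List Bool => s a.1 a.2)) (hn : PF n) :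
    PF (fun a : α => (stp (W a) (s a))^[n a] []) :=
  PF.iterateAdd (n := n) (s := fun _ => ([] : List Bool))
    (f := fun a q => stp (W a) (s a) q) hn (PF.const []) (pf_stp hW hs)
    (inc := fun _ => 4) (bnd := fun _ => 0) (PB.const 4) (PB.const 0)
    (fun a q => (sz_stp (W a) (s a) q).trans (le_max_left _ _))

end

theorem pf_C (hV : PF D.V) : PF (fun a : List Bool × List Bool => D.C a.1 a.2) :=
  PF.and (hV.comp (pf_pairBits PF.fst PF.snd))
    (PF.le (PF.length PF.snd) (pf_eval (PF.length PF.fst) D.p))

theorem pf_fX (hV : PF D.V) (hσ : PF D.σ) (hX : PF D.hX) : PF D.fX :=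
  pf_search (W := fun x q => D.C x q) (s := fun x q => D.sX x q) (D.pf_C hV)
    (hσ.comp (hX.comp PF.id)) (PF.succ (pf_eval (PF.length PF.id) D.p))

theorem pf_suc (hV : PF D.V) (hσ : PF D.σ) (hX : PF D.hX) : PF D.suc :=
  PF.comp (g := fun a : List Bool × List Bool => D.C a.1 a.2) (f := fun x => (x, D.fX x))
    (D.pf_C hV) (PF.pair PF.id (D.pf_fX hV hσ hX))

theorem pf_W (hV : PF D.V) (hσ : PF D.σ) (hX : PF D.hX) :
    PF (fun a : ℕ × List Bool => D.W a.1 a.2) := by
  have h1 : PF (fun a : ℕ × List Bool => (spl a.2).1) := PF.fst' (PF.spl PF.snd)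
  have h2 : PF (fun a : ℕ × List Bool => (spl a.2).2) := PF.snd' (PF.spl PF.snd)
  have h3 : PF (fun a : ℕ × List Bool => D.C (spl a.2).1 (spl a.2).2) :=
    PF.comp (g := fun a : List Bool × List Bool => D.C a.1 a.2)
      (f := fun a : ℕ × List Bool => ((spl a.2).1, (spl a.2).2)) (D.pf_C hV) (PF.pair h1 h2)
  exact PF.and (PF.beqStr (pf_pairBits h1 h2) PF.snd) (PF.and h3 (PF.and
    (PF.not ((D.pf_suc hV hσ hX).comp h1)) (PF.and (PF.le (PF.length h1) PF.fst)
      (PF.lt PF.fst (PF.mul (PF.length h1) (PF.length h1))))))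

theorem pf_fT (hV : PF D.V) (hσ : PF D.σ) (hX : PF D.hX) (hT : PF D.hT) :
    PF D.fT :=
  pf_search (W := fun m q => D.W m q) (s := fun m q => D.sT m q) (D.pf_W hV hσ hX)
    (hσ.comp (hT.comp PF.id)) (PF.succ (PF.add (PF.add (PF.mul (PF.const 2) PF.id) (PF.const 1))
      (pf_eval PF.id D.p)))

theorem pf_ext {α : Type} [TEnc α] {y : α → List Bool} (hy : PF y) :
    PF (fun a => ext (ee (y a))) := by
  refine (PF.ite (b := fun a => (y a).headD false) (f := fun a => [(y a).tail.headD false])
    (g := fun _ => ([] : List Bool)) (PF.headF hy) (PF.cons (PF.headF (PF.tail hy)) (PF.const []))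
    (PF.const [])).congr ?_
  intro a
  unfold ee ext
  by_cases h : (y a).headD false = true
  · rw [if_pos h, if_pos h]
  · rw [if_neg h, if_neg h]

theorem pf_out (hV : PF D.V) (hσ : PF D.σ) (hX : PF D.hX) (hT : PF D.hT) :
    PF (fun a : List Bool × ℕ => D.out a.2 (ee a.1)) := by
  have h1 : PF (fun a : List Bool × ℕ => D.fT a.2) := (D.pf_fT hV hσ hX hT).comp PF.snd
  have h2 : PF (fun a : List Bool × ℕ => ext (ee a.1)) := pf_ext PF.fst
  have h3 : PF (fun a : List Bool × ℕ => (spl (D.fT a.2)).1) := PF.fst' (PF.spl h1)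
  have h4 : PF (fun a : List Bool × ℕ => D.W a.2 (D.fT a.2)) :=
    PF.comp (g := fun a : ℕ × List Bool => D.W a.1 a.2)
      (f := fun a : List Bool × ℕ => (a.2, D.fT a.2)) (D.pf_W hV hσ hX) (PF.pair PF.snd h1)
  exact PF.ite h4 (hX.comp (PF.pair h3 (PF.append ((D.pf_fX hV hσ hX).comp h3) h2)))
    (hT.comp (PF.pair PF.snd (PF.append h1 h2)))

end Dat2

end Pool.Agent.TH671.KS
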